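import Pool.Agent.R887.TrvV
import Pool.Agent.R887.TensD

/-!
Varieties which receive finite multi-valued maps of large degree: the rank one subsheaves of the
tensor powers of the cotangent sheaf are anti-pseudo-effective.
-/

set_option autoImplicit false

open FF Pool.Agent.W602.GT Pool.Agent.Y172 Pool.Agent.R887

/-- Let `X'` be a normal complex projective variety of dimension `n ≥ 1`, with generic point `y'`,
and `Bd'` a finite set of prime divisors of `X'` (it may be empty). There is a constant `C`, which
depends only on `X'` and `Bd'`, such that the following holds for all normal projective varieties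
`X` of dimension `n`, with generic point `y`, and sets `Bd` of places of the function field of `X`,
for instance the empty set, or the set of the places without centre on an open subset `U` of `X`
(except for the notions of Kodaira dimension and special varieties, only the prime divisors of `X` in
`Bd` matter).

(1) Let `X' ← X'' → X` be a multi-valued map, with a generically finite projection `p` to `X'` and
`f : X'' ⇢ X` dominant, such that the prime divisors over `X''` which `f` maps to prime divisors `P`
of `X` are mapped to prime divisors `P'` of `X'` by `p`, and if `P'` is not in `Bd'`, then `P` is not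
in `Bd` and `p` is unramified there: for instance, two finite morphisms which are given by
`U' ← U'' → U`, the first one étale, where `U'`, `U` are the complements of the divisors in `Bd'`,
`Bd`. Suppose that the intersection number of `n - 1` pull backs by `f` of hyperplane sections of
`X` and one pull back by `p` of a hyperplane section of `X'` is at most `c deg f`. Then for all `r`,
and for all rank one subsheaves `L` of the `r`-th tensor power of `Ω¹(log Bd)` on `X`, generated by
rational tensor fields `σ ≠ 0`, the divisor `c C r H - L` is effective up to linear equivalence and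
multiples.

(2) If there are such maps for all `c > 0`, then `-L` is pseudo-effective for all these `L` and
`κ(L) ≤ 0`; in particular, `X` (or `U`) is special in the sense of Campana. -/
theorem Pool.Agent.Results.MP_9410e4_ag.AntiPsefSubsheaves.result
    {K' : Type} [Field K'] [Algebra ℂ K'] {N' n : ℕ} {y' : Fin (N' + 1) → K'}
    (hy' : NormalModel y') (hn' : Algebra.trdeg ℂ K' = n) (hn0 : 0 < n)
    {Bd' : Set (Place ℂ K')} (hBd' : Bd'.Finite) :
    ∃ C : ℝ, 0 ≤ C ∧ ∀ (K : Type) [Field K] [Algebra ℂ K] (N : ℕ) (y : Fin (N + 1) → K)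
      (Bd : Set (Place ℂ K)), NormalModel y → Algebra.trdeg ℂ K = n →
      (∀ (L : Type) [Field L] [Algebra ℂ L] (φ : K →ₐ[ℂ] L) (ψ : K' →ₐ[ℂ] L),
        FiniteDimensional ψ.fieldRange L → FiniteEtale φ ψ y Bd y' Bd' →
        ∀ c : ℝ, MultiDegreeLe φ ψ y y' (n - 1) 1 c →
        ∀ (r : ℕ) (σ : Tensor K r), σ ≠ 0 → TensorLe y Bd σ (c * C * r)) ∧
      ((∀ c : ℝ, 0 < c → ∃ (L : Type) (_ : Field L) (_ : Algebra ℂ L) (φ : K →ₐ[ℂ] L)
        (ψ : K' →ₐ[ℂ] L), FiniteDimensional ψ.fieldRange L ∧ FiniteEtale φ ψ y Bd y' Bd' ∧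
          MultiDegreeLe φ ψ y y' (n - 1) 1 c) →
        (∀ (r : ℕ) (σ : Tensor K r), σ ≠ 0 →
          (∀ t : ℝ, 0 < t → TensorLe y Bd σ t) ∧ ¬ TensorKodairaGe n Bd σ 1) ∧
        Special n Bd) := by
  obtain ⟨C, hC, h⟩ := tens_finite hy' hn' hn0 hBd'
  refine ⟨C, hC, fun K _ _ N y Bd hy hn => ⟨fun L _ _ φ ψ hψ hfe c hc =>
    (h K N y Bd hy hn L φ ψ hψ hfe c hc).2, fun hseq => ?_⟩⟩
  have h1 : ∀ (r : ℕ) (σ : Tensor K r), σ ≠ 0 →
      (∀ t : ℝ, 0 < t → TensorLe y Bd σ t) ∧ ¬ TensorKodairaGe n Bd σ 1 := by
    intro r σ hσ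
    have h2 : ∀ t : ℝ, 0 < t → TensorLe y Bd σ t := by
      intro t ht
      obtain ⟨L, _, _, φ, ψ, hψ, hfe, hc⟩ := hseq (t / (C * r + 1)) (by positivity)
      have h3 := (h K N y Bd hy hn L φ ψ hψ hfe _ hc).2 r σ hσ
      intro i hi
      obtain ⟨m, b, hm, hb, hk⟩ := h3 i hi
      refine ⟨m, b, hm, hb.trans (mul_le_mul_of_nonneg_right ?_ (Nat.cast_nonneg _)), hk⟩
      have h4 : t / (C * r + 1) * C * r = t * (C * r) / (C * r + 1) := by ring
      rw [h4, div_le_iff₀ (by positivity)]
      nlinarith [mul_nonneg hC (Nat.cast_nonneg (α := ℝ) r)]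
    exact ⟨h2, tens_kod hy hn hn0 h2⟩
  refine ⟨h1, fun p hp σ hσ _ hk => (h1 p σ hσ).2 (hk.mono hp)⟩
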