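import Pool.Agent.R887.TensD

/-!
A lower bound for the degrees of all multi-valued rational maps from a fixed variety to the varieties
which are not special in the sense of Campana, with an explicit dependence on the target.
-/

set_option autoImplicit false

open FF Pool.Agent.W602.GT Pool.Agent.Y172 Pool.Agent.R887

/-- Let `X'` be a normal projective variety of dimension `n ≥ 1`, with generic point `y'`, and `S` a
finite set of prime divisors of `X'`. There is a constant `C`, which depends only on `X'` and `S`,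
such that the following holds for all normal projective varieties `X` of dimension `n`, with generic
point `y`, and all rank one subsheaves `L` of the `r`-th tensor power of the cotangent bundle of a
resolution of `X`, generated by a rational section `σ ≠ 0`.

We consider multi-valued rational maps `X' ← X'' → X`: varieties `X''` with a generically finite
rational map `p` to `X'`, unramified over the prime divisors of `X'` which are not in `S`, and a
dominant rational map `f` to `X`.

(1) If the intersection number `(f^* H)^(n-j) (p^* H')^j`, `H` and `H'` being hyperplane sections of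
`X` and `X'`, is at most `c deg f`, then the rational maps given by `j + 1` sections of `L^m` and
`n - j` pencils of hyperplane sections of `X` have degree at most `c (C r m)^j`.

(2) If the quotients of `j + 1` sections of `L^m` are algebraically independent, then
`c ≥ 1 / (C r m)^j`.

(3) If `X` is not special, then there are `p` with `1 ≤ p ≤ n` and `δ > 0` such that the
intersection number `(f^* H)^(n-p) (p^* H')^p` is at least `δ deg f` for all these multi-valued
maps, that is, `δ ≤ c` whenever it is at most `c deg f`. -/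
theorem Pool.Agent.Results.MP_9410e4_ag.OneMapSpecial.result
    {K' : Type} [Field K'] [Algebra ℂ K'] {N' n : ℕ} {y' : Fin (N' + 1) → K'}
    (hy' : NormalModel y') (hn' : Algebra.trdeg ℂ K' = n) (hn0 : 0 < n) {S : Set (Place ℂ K')}
    (hS : S.Finite) :
    ∃ C : ℕ, 0 < C ∧ ∀ (K : Type) [Field K] [Algebra ℂ K] (N : ℕ)
      (y : Fin (N + 1) → K), NormalModel y → Algebra.trdeg ℂ K = n →
      (∀ (L : Type) [Field L] [Algebra ℂ L] (φ : K →ₐ[ℂ] L) (ψ : K' →ₐ[ℂ] L),
        FiniteDimensional ψ.fieldRange L → UnramifiedOutside ψ y' S →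
        ∀ (r : ℕ) (σ : Tensor K r), σ ≠ 0 → ∀ (j : ℕ) (c : ℝ), j ≤ n →
        MultiDegreeLe φ ψ y y' (n - j) j c → ∀ m : ℕ, 1 ≤ m →
        ∀ g : Fin (j + 1) → K, (∀ i, IsTensorSection n ∅ σ m (g i)) → g 0 ≠ 0 →
          (∀ u : Fin (n - j) → K, (∀ a, IsPencil y (u a)) →
            (degreeOver u (fun i : Fin j => g i.succ / g 0) : ℝ) ≤ c * (C * r * m) ^ j) ∧
          (AlgebraicIndependent ℂ (fun i : Fin j => g i.succ / g 0) →
            1 ≤ c * (C * r * m) ^ j)) ∧
      (¬ Special n (∅ : Set (Place ℂ K)) → ∃ p : ℕ, 1 ≤ p ∧ p ≤ n ∧ ∃ δ : ℝ, 0 < δ ∧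
        ∀ (L : Type) [Field L] [Algebra ℂ L] (φ : K →ₐ[ℂ] L) (ψ : K' →ₐ[ℂ] L),
          FiniteDimensional ψ.fieldRange L → UnramifiedOutside ψ y' S → ∀ c : ℝ,
          MultiDegreeLe φ ψ y y' (n - p) p c → δ ≤ c) := by
  obtain ⟨C, hC, h⟩ := tens_one hy' hn' hn0 hS
  refine ⟨C, hC, fun K _ _ N y hy hn => ?_⟩
  have key : ∀ (L : Type) [Field L] [Algebra ℂ L] (φ : K →ₐ[ℂ] L) (ψ : K' →ₐ[ℂ] L),
        FiniteDimensional ψ.fieldRange L → UnramifiedOutside ψ y' S →
        ∀ (r : ℕ) (σ : Tensor K r), σ ≠ 0 → ∀ (j : ℕ) (c : ℝ), j ≤ n →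
        MultiDegreeLe φ ψ y y' (n - j) j c → ∀ m : ℕ, 1 ≤ m →
        ∀ g : Fin (j + 1) → K, (∀ i, IsTensorSection n ∅ σ m (g i)) → g 0 ≠ 0 →
          (∀ u : Fin (n - j) → K, (∀ a, IsPencil y (u a)) →
            (degreeOver u (fun i : Fin j => g i.succ / g 0) : ℝ) ≤ c * (C * r * m) ^ j) ∧
          (AlgebraicIndependent ℂ (fun i : Fin j => g i.succ / g 0) →
            1 ≤ c * (C * r * m) ^ j) := by
    intro L _ _ φ ψ hψ hun r σ hσ j c hj hc m hm g hg hg0
    have h1 : ∀ u : Fin (n - j) → K, (∀ a, IsPencil y (u a)) →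
            (degreeOver u (fun i : Fin j => g i.succ / g 0) : ℝ) ≤ c * (C * r * m) ^ j :=
      fun u hu => h hy hn φ ψ hψ hun (fun _ _ _ _ _ _ P _ _ => Set.notMem_empty P) hσ hj hc m hm
        u hu g hg hg0
    refine ⟨h1, fun hind => ?_⟩
    obtain ⟨u, hu, hd⟩ := exists_complete hy hn hj hind
    have h2 := h1 u hu
    have hdw : degreeOver u (fun i : Fin j => g i.succ / g 0) =
        dg ℂ (Sum.elim u fun i : Fin j => g i.succ / g 0) := by
      unfold degreeOver dg
      rw [Set.Sum.elim_range]
    rw [hdw] at h2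
    have h3 : (1 : ℝ) ≤ dg ℂ (Sum.elim u fun i : Fin j => g i.succ / g 0) := by exact_mod_cast hd
    linarith
  refine ⟨key, fun hns => ?_⟩
  unfold Pool.Agent.R887.Special at hns
  push Not at hns
  obtain ⟨p, hp, σ, hσ, -, m, hm, g, hg, hg0, hind⟩ := hns
  have hpn : p ≤ n := by
    have h1 := hind.cardinalMk_le_trdeg
    rw [hn, Cardinal.mk_fin] at h1
    exact_mod_cast h1
  have hpos : (0 : ℝ) < (C * p * m : ℝ) ^ p := by
    have h1 : (0 : ℝ) < C := by exact_mod_cast hC
    have h2 : (0 : ℝ) < p := by exact_mod_cast hp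
    have h3 : (0 : ℝ) < m := by exact_mod_cast hm
    positivity
  refine ⟨p, hp, hpn, 1 / (C * p * m : ℝ) ^ p, by positivity, ?_⟩
  intro L _ _ φ ψ hψ hun c hc
  have h1 := (key L φ ψ hψ hun p σ hσ p c hpn hc m hm g hg hg0).2 hind
  rw [div_le_iff₀ hpos]
  exact h1
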